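import Mathlib
import Pool.Agent.Helper92.ZP.Ana

/-!
# The half law: numbers
-/

open Filter Topology

namespace Pool.Agent.Helper4.HL

/-- a log-convex sequence of maximal growth: the quotients over `j` steps -/
theorem tendsto_ratio_add {s : ℕ → ℝ} {B : ℝ} (hs : ∀ l, 0 < s l)
    (h : Tendsto (fun l => s (l + 1) / s l) atTop (𝓝 B)) (j : ℕ) :
    Tendsto (fun l => s (l + j) / s l) atTop (𝓝 (B ^ j)) := by
  induction j with
  | zero =>
    refine tendsto_const_nhds.congr fun l => ?_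
    rw [pow_zero, Nat.add_zero, div_self (hs l).ne']
  | succ j ih =>
    have h1 : Tendsto (fun l => s (l + j + 1) / s (l + j)) atTop (𝓝 B) :=
      h.comp (tendsto_add_atTop_nat j)
    have h2 := ih.mul h1
    rw [← pow_succ] at h2
    refine h2.congr fun l => ?_
    rw [div_mul_div_comm, mul_comm (s (l + j)), ← add_assoc, mul_div_mul_right _ _ (hs _).ne']

theorem tendsto_sq {c : ℕ → ℕ} {b d : ℕ} (hb : 1 ≤ b) (hc : ∀ l, 1 ≤ c l)
    (hconv : ∀ l, c (l + 1) ^ 2 ≤ c l * c (l + 2)) (hup : ∀ l, c (l + 1) ≤ b ^ 2 * c l)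
    (hgr : ∀ l, b ^ (2 * l) ≤ c l * (l + 2) ^ d) :
    Tendsto (fun l => (c (l + 1) : ℝ) / c l) atTop (𝓝 ((b : ℝ) ^ 2)) := by
  have hb' : (1 : ℝ) ≤ b := by exact_mod_cast hb
  have hs : ∀ l, (0 : ℝ) < c l := fun l => by exact_mod_cast hc l
  have hB : (0 : ℝ) < (b : ℝ) ^ 2 := by positivity
  refine Pool.Agent.Helper92.ZP.tendsto_ratio (s := fun l => (c l : ℝ)) (B := (b : ℝ) ^ 2)
    (C := c 0) (ε := 1 / 2 ^ d) d hB hs ?_ ?_ (by positivity) ?_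
  · intro l
    exact_mod_cast hconv l
  · intro l
    induction l with
    | zero => simp
    | succ l ih =>
      have h2 : (c (l + 1) : ℝ) ≤ (b : ℝ) ^ 2 * c l := by exact_mod_cast hup l
      calc (c (l + 1) : ℝ) ≤ (b : ℝ) ^ 2 * c l := h2
        _ ≤ (b : ℝ) ^ 2 * (c 0 * ((b : ℝ) ^ 2) ^ l) := by gcongr
        _ = c 0 * ((b : ℝ) ^ 2) ^ (l + 1) := by ring
  · refine Eventually.frequently (Eventually.of_forall fun l => ?_)
    have h2 : (b : ℝ) ^ (2 * l) ≤ c l * ((l : ℝ) + 2) ^ d := by exact_mod_cast hgr l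
    have h3 : ((l : ℝ) + 2) ^ d ≤ (2 * ((l : ℝ) + 1)) ^ d := by
      refine pow_le_pow_left₀ (by positivity) ?_ _
      linarith [(Nat.cast_nonneg l : (0 : ℝ) ≤ l)]
    have h4 : (b : ℝ) ^ (2 * l) ≤ c l * (2 * ((l : ℝ) + 1)) ^ d :=
      h2.trans (mul_le_mul_of_nonneg_left h3 (hs l).le)
    rw [div_le_iff₀ (by positivity), div_mul_eq_mul_div, div_le_iff₀ (by positivity)]
    calc 1 * ((b : ℝ) ^ 2) ^ l = (b : ℝ) ^ (2 * l) := by ring
      _ ≤ c l * (2 * ((l : ℝ) + 1)) ^ d := h4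
      _ = c l * ((l : ℝ) + 1) ^ d * 2 ^ d := by rw [mul_pow]; ring

theorem ratio_bound {c : ℕ → ℕ} {b d : ℕ} (hb : 1 ≤ b) (hc : ∀ l, 1 ≤ c l)
    (hconv : ∀ l, c (l + 1) ^ 2 ≤ c l * c (l + 2)) (hup : ∀ l, c (l + 1) ≤ b ^ 2 * c l)
    (hgr : ∀ l, b ^ (2 * l) ≤ c l * (l + 2) ^ d) (j m : ℕ) :
    ∃ L, ∀ l ≥ L, m * b ^ (2 * j) * c l ≤ m * c (l + j) + c l := by
  have hb' : (1 : ℝ) ≤ b := by exact_mod_cast hb
  have hs : ∀ l, (0 : ℝ) < c l := fun l => by exact_mod_cast hc l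
  have h1 := tendsto_sq hb hc hconv hup hgr
  rcases Nat.eq_zero_or_pos m with rfl | hm
  · exact ⟨0, fun l _ => by simp⟩
  have hm' : (0 : ℝ) < m := by exact_mod_cast hm
  have h2 := tendsto_ratio_add hs h1 j
  have h3 : ((b : ℝ) ^ 2) ^ j - 1 / m < ((b : ℝ) ^ 2) ^ j := by
    have : (0 : ℝ) < 1 / m := by positivity
    linarith
  obtain ⟨L, hL⟩ := eventually_atTop.1 (h2.eventually (lt_mem_nhds h3))
  refine ⟨L, fun l hl => ?_⟩
  have h4 := hL l hl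
  rw [lt_div_iff₀ (hs l)] at h4
  have h5 : (m : ℝ) * (((b : ℝ) ^ 2) ^ j - 1 / m) * c l = m * b ^ (2 * j) * c l - c l := by
    rw [mul_sub, mul_one_div_cancel hm'.ne', ← pow_mul]
    ring
  have h6 : (m : ℝ) * ((((b : ℝ) ^ 2) ^ j - 1 / m) * c l) < m * c (l + j) :=
    mul_lt_mul_of_pos_left h4 hm'
  rw [← mul_assoc, h5] at h6
  have h7 : (m : ℝ) * b ^ (2 * j) * c l ≤ m * c (l + j) + c l := by linarith
  exact_mod_cast h7

end Pool.Agent.Helper4.HL
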