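import Mathlib
import Pool.Agent.Helper34.ZP.G8
import Pool.Agent.Helper56.QL.Odd
import Pool.Agent.Helper4.HL.Num

/-!
# Ranks of idempotents on all powers
-/

universe u v w t

open CategoryTheory Filter Topology

namespace Pool.Agent.Helper4.HL

open Pool.Agent.Helper10 Pool.Agent.Helper11.Iso SmProjVar SPre Pool.Agent.Helper34.ZP

variable {k : Type u} [Field k] {K : Type t} [Field K] {Ω : Type v} [Field Ω] [Algebra K Ω]
  {P : SPre.{u, v, w, t} k K Ω}

/-- retracts in the second factor -/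
lemma rho_retract {Z : SmProjVar k} (e : P.H Z →ₗ[Ω] P.H Z) {W W' : SmProjVar k}
    (h : Retract W W') :
    rho P (tmap e (LinearMap.id : P.H W →ₗ[Ω] P.H W)) ≤
      rho P (tmap e (LinearMap.id : P.H W' →ₗ[Ω] P.H W')) := by
  obtain ⟨i, p, hip⟩ := h
  let j : (Z.prod W).toOver ⟶ (Z.prod W').toOver := lift (fst _ _) (snd _ _ ≫ i)
  let q : (Z.prod W').toOver ⟶ (Z.prod W).toOver := lift (fst _ _) (snd _ _ ≫ p)
  have hjq : j ≫ q = 𝟙 _ := by
    apply hom_ext
    · simp only [j, q, Category.assoc, lift_fst, Category.id_comp]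
    · simp only [j, q, Category.assoc, lift_snd, lift_snd_assoc, hip, Category.id_comp,
        Category.comp_id]
  have hj : ∀ (z : P.H Z) (w : P.H W'), P.pull j (P.ext Z W' z w) =
      P.ext Z W z (P.pull i w) := by
    intro z w
    unfold SPre.ext
    rw [map_mul (P.pull j), pull_pull, pull_pull, lift_fst, lift_snd, pull_pull]
  have h1 : (P.pull j).toLinearMap ∘ₗ tmap e LinearMap.id =
      tmap e LinearMap.id ∘ₗ (P.pull j).toLinearMap := by
    refine hom_ext_ext fun z w => ?_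
    change P.pull j (tmap e LinearMap.id (P.ext Z W' z w)) =
      tmap e LinearMap.id (P.pull j (P.ext Z W' z w))
    rw [tmap_ext, hj, hj, tmap_ext, LinearMap.id_apply, LinearMap.id_apply]
  refine rdim_le_of_map (P.pull j).toLinearMap (fun x hx _ => rad_pull _ hx) ?_
  rintro _ ⟨a, ha, rfl⟩
  refine ⟨_, ⟨P.pull q a, P.pull_mem _ _ ha, rfl⟩, ?_⟩
  have h2 : P.pull j (tmap e LinearMap.id (P.pull q a)) =
      tmap e LinearMap.id (P.pull j (P.pull q a)) := LinearMap.congr_fun h1 (P.pull q a)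
  rw [pull_pull, hjq, P.pull_id, AlgHom.id_apply] at h2
  rw [AlgHom.toLinearMap_apply, h2, sub_self]
  exact zero_mem _

/-- odd indices (even powers) -/
lemma rho_le_odd [CharZero Ω] (X : SmProjVar k) (l : ℕ) {Z : SmProjVar k}
    {e : P.H Z →ₗ[Ω] P.H Z} (he : e ∈ Mor P Z Z) (hee : e ∘ₗ e = e) :
    rho P (tmap e (LinearMap.id : P.H (X.selfProd (2 * l + 1)) →ₗ[Ω] _)) ≤
      Module.finrank Ω (LinearMap.range e) * nr P (X.selfProd (2 * l + 1)) := by
  have e1 : 2 * l + 1 = l + l + 1 := by ring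
  rw [e1]
  refine (rho_retract e (G7_pow_prod_pow X l l)).trans ((rho_le Z _ he hee).trans ?_)
  rw [nr_pow_prod_pow]

/-- even indices (odd powers) -/
lemma rho_le_even [CharZero Ω] (X : SmProjVar k) (l : ℕ) {Z : SmProjVar k}
    {e : P.H Z →ₗ[Ω] P.H Z} (he : e ∈ Mor P Z Z) (hee : e ∘ₗ e = e) :
    rho P (tmap e (LinearMap.id : P.H (X.selfProd (2 * l + 2)) →ₗ[Ω] _)) ≤
      Module.finrank Ω (LinearMap.range e) *
        (Module.finrank Ω (P.H X) * nr P (X.selfProd (2 * l + 1))) := by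
  have e1 : 2 * l + 2 = 0 + (l + l + 1) + 1 := by ring
  have e2 : 2 * l + 1 = l + l + 1 := by ring
  rw [e1, e2]
  have h1 : Retract (X.selfProd (0 + (l + l + 1) + 1))
      (X.prod ((X.selfProd l).prod (X.selfProd l))) :=
    (G7_pow_prod_pow X 0 (l + l + 1)).trans ((Retract.refl X).prod (G7_pow_prod_pow X l l))
  refine (rho_retract e h1).trans ((rho_assoc Z X _ e).symm.le.trans ?_)
  have h2 : tmap e (LinearMap.id : P.H X →ₗ[Ω] P.H X) ∈ Mor P (Z.prod X) (Z.prod X) :=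
    tmap_mem_Mor he (isMap_id X)
  refine (rho_le (Z.prod X) _ h2 (tmap_idem hee (LinearMap.comp_id _))).trans ?_
  rw [finrank_range_tmap, LinearMap.range_id, finrank_top, nr_pow_prod_pow, mul_assoc]

/-- the upper bound of the multiplicities -/
noncomputable def uni (P : SPre.{u, v, w, t} k K Ω) (X : SmProjVar k) (m : ℕ) : ℕ :=
  if m % 2 = 1 then nr P (X.selfProd m) else Module.finrank Ω (P.H X) * nr P (X.selfProd (m - 1))

lemma uni_odd (X : SmProjVar k) (l : ℕ) : uni P X (2 * l + 1) = nr P (X.selfProd (2 * l + 1)) := by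
  unfold uni
  rw [if_pos (by omega)]

lemma uni_even (X : SmProjVar k) (l : ℕ) : uni P X (2 * l + 2) =
    Module.finrank Ω (P.H X) * nr P (X.selfProd (2 * l + 1)) := by
  unfold uni
  rw [if_neg (by omega)]
  rfl

theorem rho_le_uni [CharZero Ω] (X : SmProjVar k) {m : ℕ} (hm : 1 ≤ m) {Z : SmProjVar k}
    {e : P.H Z →ₗ[Ω] P.H Z} (he : e ∈ Mor P Z Z) (hee : e ∘ₗ e = e) :
    rho P (tmap e (LinearMap.id : P.H (X.selfProd m) →ₗ[Ω] _)) ≤
      Module.finrank Ω (LinearMap.range e) * uni P X m := by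
  rcases Nat.even_or_odd' m with ⟨l, rfl | rfl⟩
  · obtain ⟨l, rfl⟩ : ∃ l', l = l' + 1 := ⟨l - 1, by omega⟩
    have e1 : 2 * (l + 1) = 2 * l + 2 := by ring
    rw [e1, uni_even]
    exact rho_le_even X l he hee
  · rw [uni_odd]
    exact rho_le_odd X l he hee

theorem nr_le_uni [CharZero Ω] (X : SmProjVar k) {m : ℕ} (hm : 1 ≤ m) :
    nr P (X.selfProd m) ≤ uni P X m := by
  rcases Nat.even_or_odd' m with ⟨l, rfl | rfl⟩
  · obtain ⟨l, rfl⟩ : ∃ l', l = l' + 1 := ⟨l - 1, by omega⟩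
    have e1 : 2 * (l + 1) = 2 * l + 2 := by ring
    rw [e1, uni_even]
    exact odd_le X l
  · rw [uni_odd]

lemma tendsto_of_parity {f : ℕ → ℝ} {a : ℝ} (h0 : Tendsto (fun l => f (2 * l + 2)) atTop (𝓝 a))
    (h1 : Tendsto (fun l => f (2 * l + 1)) atTop (𝓝 a)) : Tendsto f atTop (𝓝 a) := by
  intro s hs
  obtain ⟨L0, h0⟩ := eventually_atTop.1 (h0 hs)
  obtain ⟨L1, h1⟩ := eventually_atTop.1 (h1 hs)
  refine mem_atTop_sets.2 ⟨2 * (L0 + L1) + 2, fun m hm => ?_⟩
  rcases Nat.even_or_odd' m with ⟨l, rfl | rfl⟩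
  · obtain ⟨l, rfl⟩ : ∃ l', l = l' + 1 := ⟨l - 1, by omega⟩
    have := h0 l (by omega)
    exact this
  · exact h1 l (by omega)

lemma hr_eq_nr_of_D {X : SmProjVar k} (h : P.D X) : hr P X = nr P X := by
  have h1 := rdim_add (radS P X) (P.alg X)
  have h2 : P.alg X ⊓ radS P X = ⊥ := by
    rw [eq_bot_iff]
    rintro x ⟨_, hx⟩
    exact (Submodule.mem_bot _).2 (h x hx)
  rw [h2, finrank_bot, add_zero] at h1
  exact h1.symm

lemma even_up [CharZero Ω] (X : SmProjVar k) (l : ℕ) : nr P (X.selfProd (2 * (l + 1) + 1)) ≤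
    Module.finrank Ω (P.H X) ^ 2 * nr P (X.selfProd (2 * l + 1)) := by
  have h2 := nr_prod_le (P := P) (X.selfProd 1) (X.selfProd l)
  have h3 := nr_pow_pow (P := P) X 1 0 l
  have e3 : l + l + 1 = 2 * l + 1 := by ring
  have e4 : (1 + 1) * (0 + 1) + 2 * l + 1 = 2 * (l + 1) + 1 := by ring
  rw [nr_pow_prod_pow, e3, finrank_selfProd] at h2
  rw [e4] at h3
  have h4 : nr P ((X.selfProd 1).prod ((X.selfProd l).prod (X.selfProd l))) =
      nr P (X.selfProd (2 * (l + 1) + 1)) := h3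
  rwa [h4] at h2

/-- the ratios of even powers -/
theorem tendsto_even [CharZero Ω] (hpt : ∀ Y, 1 ≤ nr P Y) {X : SmProjVar k} (hD : P.DP X) :
    Tendsto (fun l => (nr P (X.selfProd (2 * (l + 1) + 1)) : ℝ) / nr P (X.selfProd (2 * l + 1)))
      atTop (𝓝 ((Module.finrank Ω (P.H X) : ℝ) ^ 2)) := by
  refine tendsto_sq (c := fun l => nr P (X.selfProd (2 * l + 1)))
    (d := Module.finrank Ω (P.H X) ^ 2) (one_le_finrank hpt X) (fun l => hpt _) (even_conv X)
    (even_up X) fun l => ?_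
  have h := even_growth hpt X l
  rwa [hr_eq_nr_of_D (hD _)] at h

lemma odd_step [CharZero Ω] (X : SmProjVar k) (l : ℕ) : nr P (X.selfProd (2 * (l + 1) + 1)) ≤
    nr P (X.selfProd (2 * l + 2)) + (Module.finrank Ω (P.H X) ^ 2 - Module.finrank Ω (P.H X)) *
      nr P (X.selfProd (2 * l + 1)) := by
  have h := Pool.Agent.Helper56.QL.odd_le (P := P) X (X.selfProd l)
  have h3 : nr P ((X.prod X).prod ((X.selfProd l).prod (X.selfProd l))) = _ :=
    nr_pow_pow (P := P) X 1 0 l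
  have h4 : nr P (X.prod ((X.selfProd l).prod (X.selfProd l))) = _ :=
    nr_pow_pow (P := P) X 0 0 l
  have e1 : (1 + 1) * (0 + 1) + 2 * l + 1 = 2 * (l + 1) + 1 := by ring
  have e2 : (0 + 1) * (0 + 1) + 2 * l + 1 = 2 * l + 2 := by ring
  have e3 : l + l + 1 = 2 * l + 1 := by ring
  rw [h3, h4, nr_pow_prod_pow, e1, e2, e3] at h
  exact h

/-- the ratios of odd and even powers -/
theorem tendsto_odd [CharZero Ω] (hpt : ∀ Y, 1 ≤ nr P Y) {X : SmProjVar k} (hD : P.DP X) :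
    Tendsto (fun l => (nr P (X.selfProd (2 * l + 2)) : ℝ) / nr P (X.selfProd (2 * l + 1)))
      atTop (𝓝 (Module.finrank Ω (P.H X) : ℝ)) := by
  have hb1 := one_le_finrank hpt X
  set b := Module.finrank Ω (P.H X) with hb
  have hN : ∀ m, (0 : ℝ) < nr P (X.selfProd m) := fun m => by exact_mod_cast hpt _
  have h1 := tendsto_even hpt hD
  rw [← hb] at h1
  have h2 : Tendsto (fun l => (nr P (X.selfProd (2 * (l + 1) + 1)) : ℝ) /
      nr P (X.selfProd (2 * l + 1)) - ((b : ℝ) ^ 2 - b)) atTop (𝓝 (b : ℝ)) := by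
    have := h1.sub_const ((b : ℝ) ^ 2 - b)
    rwa [sub_sub_cancel] at this
  refine tendsto_of_tendsto_of_tendsto_of_le_of_le h2 tendsto_const_nhds (fun l => ?_)
    fun l => ?_
  · have h3 : (nr P (X.selfProd (2 * (l + 1) + 1)) : ℝ) ≤ nr P (X.selfProd (2 * l + 2)) +
        ((b : ℝ) ^ 2 - b) * nr P (X.selfProd (2 * l + 1)) := by
      have h4 := odd_step (P := P) X l
      rw [← hb] at h4
      have h5 : b ≤ b ^ 2 := by nlinarith
      have h6 : (nr P (X.selfProd (2 * (l + 1) + 1)) : ℝ) ≤ nr P (X.selfProd (2 * l + 2)) +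
        ((b ^ 2 - b : ℕ) : ℝ) * nr P (X.selfProd (2 * l + 1)) := by exact_mod_cast h4
      rwa [Nat.cast_sub h5, Nat.cast_pow] at h6
    change (nr P (X.selfProd (2 * (l + 1) + 1)) : ℝ) / nr P (X.selfProd (2 * l + 1)) -
      ((b : ℝ) ^ 2 - b) ≤ nr P (X.selfProd (2 * l + 2)) / nr P (X.selfProd (2 * l + 1))
    rw [sub_le_iff_le_add, div_le_iff₀ (hN _), add_mul, div_mul_cancel₀ _ (hN _).ne']
    exact h3
  · change (nr P (X.selfProd (2 * l + 2)) : ℝ) / nr P (X.selfProd (2 * l + 1)) ≤ b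
    rw [div_le_iff₀ (hN _)]
    have h4 : nr P (X.selfProd (2 * l + 2)) ≤ b * nr P (X.selfProd (2 * l + 1)) := odd_le X l
    exact_mod_cast h4

section Odd

variable [CharZero Ω] (hpt : ∀ Y, 1 ≤ nr P Y) {X : SmProjVar k} (hD : P.DP X)

include hpt hD

/-- the ratios of all powers -/
theorem tendsto_all : Tendsto (fun m => (nr P (X.selfProd (m + 1)) : ℝ) / nr P (X.selfProd m))
    atTop (𝓝 (Module.finrank Ω (P.H X) : ℝ)) := by
  have hb : (0 : ℝ) < Module.finrank Ω (P.H X) := by exact_mod_cast one_le_finrank hpt X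
  have hN : ∀ m, (0 : ℝ) < nr P (X.selfProd m) := fun m => by exact_mod_cast hpt _
  have hodd := tendsto_odd hpt hD
  refine tendsto_of_parity ?_ hodd
  have h1 := (tendsto_even hpt hD).div hodd hb.ne'
  rw [pow_two, mul_div_assoc, div_self hb.ne', mul_one] at h1
  refine h1.congr fun l => ?_
  rw [Pi.div_apply]
  have e1 : 2 * (l + 1) + 1 = 2 * l + 2 + 1 := by ring
  rw [e1]
  have h2 := (hN (2 * l + 1)).ne'
  have h3 := (hN (2 * l + 2)).ne'
  field_simp

theorem tendsto_uni : Tendsto (fun m => (uni P X m : ℝ) / nr P (X.selfProd m)) atTop (𝓝 1) := by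
  have hodd := tendsto_odd hpt hD
  have hb : (0 : ℝ) < Module.finrank Ω (P.H X) := by exact_mod_cast one_le_finrank hpt X
  have hN : ∀ m, (0 : ℝ) < nr P (X.selfProd m) := fun m => by exact_mod_cast hpt _
  refine tendsto_of_parity ?_ ?_
  · have h1 := (tendsto_const_nhds (x := (Module.finrank Ω (P.H X) : ℝ))).div hodd hb.ne'
    rw [div_self hb.ne'] at h1
    refine h1.congr fun l => ?_
    rw [Pi.div_apply, uni_even, Nat.cast_mul, div_div_eq_mul_div]
  · refine tendsto_const_nhds.congr fun l => ?_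
    rw [uni_odd, div_self (hN _).ne']

theorem tendsto_prod (r : ℕ) :
    Tendsto (fun m => (nr P ((X.selfProd r).prod (X.selfProd m)) : ℝ) / nr P (X.selfProd m))
      atTop (𝓝 ((Module.finrank Ω (P.H X) : ℝ) ^ (r + 1))) := by
  have hN : ∀ m, (0 : ℝ) < nr P (X.selfProd m) := fun m => by exact_mod_cast hpt _
  refine (tendsto_ratio_add hN (tendsto_all hpt hD) (r + 1)).congr fun m => ?_
  rw [nr_pow_prod_pow]
  congr 3
  ring

/-- the upper bound of the multiplicities on all powers -/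
theorem exists_U : ∃ U : ℕ → ℕ, (∀ m, 1 ≤ m → nr P (X.selfProd m) ≤ U m) ∧
    (∀ m, 1 ≤ m → ∀ (Z : SmProjVar k) (e : P.H Z →ₗ[Ω] P.H Z), e ∈ Mor P Z Z → e ∘ₗ e = e →
      rho P (tmap e (LinearMap.id : P.H (X.selfProd m) →ₗ[Ω] P.H (X.selfProd m))) ≤
        Module.finrank Ω (LinearMap.range e) * U m) ∧
    Tendsto (fun m => (U m : ℝ) / nr P (X.selfProd m)) atTop (𝓝 1) ∧
    ∀ r, Tendsto (fun m => (nr P ((X.selfProd r).prod (X.selfProd m)) : ℝ) /
      nr P (X.selfProd m)) atTop (𝓝 ((Module.finrank Ω (P.H X) : ℝ) ^ (r + 1))) :=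
  ⟨uni P X, fun m hm => nr_le_uni X hm, fun m hm _ _ he hee => rho_le_uni X hm he hee, tendsto_uni hpt hD,
    tendsto_prod hpt hD⟩

end Odd

end Pool.Agent.Helper4.HL
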