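import Mathlib
import Pool.Agent.Helper34.ZP.G4
import Pool.Agent.Helper34.ZP.P2b
import Pool.Agent.Helper34.ZP.Rdim
import Pool.Agent.Helper34.ZP.G7

/-!
# The half law: the images of one class under algebraic maps
-/

universe u v w t

open CategoryTheory TensorProduct

namespace Pool.Agent.Helper4.HL

open Pool.Agent.Helper10 Pool.Agent.Helper11.Iso SmProjVar SPre Pool.Agent.Helper34.ZP

theorem finrank_map_add {F V W : Type*} [Field F] [AddCommGroup V] [Module F V]
    [Module.Finite F V] [AddCommGroup W] [Module F W] (g : V →ₗ[F] W) (S : Submodule F V) :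
    Module.finrank F (S.map g) + Module.finrank F (S ⊓ LinearMap.ker g : Submodule F V) =
      Module.finrank F S := by
  have h1 := LinearMap.finrank_range_add_finrank_ker (g ∘ₗ S.subtype)
  have h2 : LinearMap.range (g ∘ₗ S.subtype) = S.map g := by
    rw [LinearMap.range_comp, Submodule.range_subtype]
  have h3 : Module.finrank F (LinearMap.ker (g ∘ₗ S.subtype)) =
      Module.finrank F (S ⊓ LinearMap.ker g : Submodule F V) := by
    have h4 : LinearMap.ker (g ∘ₗ S.subtype) = (S ⊓ LinearMap.ker g).comap S.subtype := by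
      ext x
      simp
    rw [h4]
    exact LinearEquiv.finrank_eq (Submodule.comapSubtypeEquivOfLe inf_le_left)
  rw [h2, h3] at h1
  exact h1

variable {k : Type u} [Field k] {K : Type t} [Field K] {Ω : Type v} [Field Ω] [Algebra K Ω]
  {P : SPre.{u, v, w, t} k K Ω}

/-- the algebraic maps which kill `τ` -/
def Ann {V : SmProjVar k} (τ : P.H V) (Y : SmProjVar k) : Submodule Ω (P.H V →ₗ[Ω] P.H Y) :=
  Mor P V Y ⊓ LinearMap.ker (LinearMap.applyₗ τ : (P.H V →ₗ[Ω] P.H Y) →ₗ[Ω] P.H Y)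

lemma mem_Ann {V : SmProjVar k} {τ : P.H V} {Y : SmProjVar k} {f : P.H V →ₗ[Ω] P.H Y} :
    f ∈ Ann τ Y ↔ f ∈ Mor P V Y ∧ f τ = 0 := Iff.rfl

lemma finrank_cyc_add {V : SmProjVar k} (τ : P.H V) (Y : SmProjVar k) :
    Module.finrank Ω (cyc P τ Y) + Module.finrank Ω (Ann τ Y) =
      Module.finrank Ω (Mor P V Y) :=
  finrank_map_add _ _

lemma nr_le_cyc_add {V : SmProjVar k} (τ : P.H V) (Y : SmProjVar k) :
    nr P (V.prod Y) ≤ Module.finrank Ω (cyc P τ Y) + rdim (Nul P V Y) (Ann τ Y) := by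
  have h1 := finrank_cyc_add τ Y
  have h2 := rdim_add (Nul P V Y) (Ann τ Y)
  have h3 := rdim_add (Nul P V Y) (Mor P V Y)
  have h4 : Ann τ Y ⊓ Nul P V Y ≤ Mor P V Y ⊓ Nul P V Y :=
    inf_le_inf_right _ inf_le_left
  have h5 := Submodule.finrank_mono h4
  rw [rdim_Mor] at h3
  omega

/-- the annihilator of a nonzero class is generated by an idempotent, up to numerically trivial
maps -/
theorem exists_idem_ann [CharZero Ω] {V : SmProjVar k} {τ : P.H V} (hτ : τ ≠ 0)
    (hnil : ∀ x ∈ Nul P V V, IsNilpotent (x : Module.End Ω (P.H V))) :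
    ∃ e ∈ Mor P V V, e ∘ₗ e = e ∧
      Module.finrank Ω (LinearMap.range e) < Module.finrank Ω (P.H V) ∧
      ∀ Y, ∀ f ∈ Ann τ Y, f - f ∘ₗ e ∈ Nul P V Y := by
  have hc := isCat (P := P) V V
  obtain ⟨e, he, hee, hr, h⟩ := exists_idem_of_nil (P.corrAlg V) (par P V)
    (by exact hc.ss) (fun x hx => hc.sA x hx)
    (fun x hx => hnil x (by rw [← nul_corrAlg]; exact hx)) (Ann τ V) (fun x hx => hx.1)
    (fun a ha x hx => ⟨hc.AA a ha x hx.1, by
      change (a ∘ₗ x) τ = 0
      rw [LinearMap.comp_apply, (mem_Ann.1 hx).2, map_zero]⟩)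
    (by
      rintro ⟨x, hx, y, hy, hxy⟩
      refine hτ ?_
      have h1 : ((y : Module.End Ω (P.H V))) τ = τ := by
        have h2 := congrArg (fun f : Module.End Ω (P.H V) => f τ) hxy
        simp only [LinearMap.add_apply] at h2
        rw [(mem_Ann.1 hx).2, zero_add] at h2
        exact h2
      obtain ⟨n, hn⟩ := hnil y (by rw [← nul_corrAlg]; exact hy)
      have h3 : ∀ m : ℕ, ((y : Module.End Ω (P.H V)) ^ m) τ = τ := by
        intro m
        induction m with
        | zero => rfl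
        | succ m ih => rw [pow_succ, Module.End.mul_apply, h1, ih]
      rw [← h3 n, hn, LinearMap.zero_apply])
  refine ⟨e, he.1, hee, hr, fun Y f hf => ⟨?_, fun g hg => ?_⟩⟩
  · exact sub_mem hf.1 ((isCat (P := P) V Y).BA f hf.1 e he.1)
  · have h1 : g ∘ₗ f ∈ Ann τ V := ⟨(isCat (P := P) V Y).CB g hg f hf.1, by
      change (g ∘ₗ f) τ = 0
      rw [LinearMap.comp_apply, (mem_Ann.1 hf).2, map_zero]⟩
    have h2 := h _ h1
    rw [nul_corrAlg] at h2
    have h3 := h2.2 LinearMap.id hc.idA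
    rw [LinearMap.id_comp] at h3
    have h4 : g ∘ₗ (f - f ∘ₗ e) ∘ₗ par P V = (g ∘ₗ f - (g ∘ₗ f) * e) ∘ₗ par P V := by
      rw [LinearMap.sub_comp, LinearMap.comp_sub, LinearMap.sub_comp]
      rfl
    rw [h4]
    exact h3

/-- the rank of the right multiplication with an algebraic operator -/
lemma rdim_precomp {V Y : SmProjVar k} {e : P.H V →ₗ[Ω] P.H V} (he : e ∈ Mor P V V) :
    rdim (Nul P V Y) ((Mor P V Y).map (precomp e)) =
      rho P (tmap (adj e) (LinearMap.id : P.H Y →ₗ[Ω] P.H Y)) := by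
  rw [rho, ← rdim_map_opL V Y, ← map_opL_alg V Y, ← Submodule.map_comp, ← Submodule.map_comp]
  congr 2
  refine LinearMap.ext fun c => ?_
  rw [LinearMap.comp_apply, LinearMap.comp_apply, opL_apply, opL_apply, op_tmap, adj_adj he,
    LinearMap.id_comp]
  rfl

theorem nr_le_cyc_add_rho [CharZero Ω] {V : SmProjVar k} {τ : P.H V} (hτ : τ ≠ 0)
    (hnil : ∀ x ∈ Nul P V V, IsNilpotent (x : Module.End Ω (P.H V))) :
    ∃ e ∈ Mor P V V, e ∘ₗ e = e ∧
      Module.finrank Ω (LinearMap.range e) < Module.finrank Ω (P.H V) ∧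
      ∀ Y, nr P (V.prod Y) ≤ Module.finrank Ω (cyc P τ Y) +
        rho P (tmap e (LinearMap.id : P.H Y →ₗ[Ω] P.H Y)) := by
  obtain ⟨e, he, hee, hr, h⟩ := exists_idem_ann hτ hnil
  refine ⟨adj e, adj_mem_Mor he, ?_, ?_, fun Y => ?_⟩
  · rw [← adj_comp, hee]
  · rw [finrank_range_adj]
    exact hr
  · refine (nr_le_cyc_add τ Y).trans (Nat.add_le_add_left ?_ _)
    rw [← rdim_precomp he]
    refine rdim_le_of_forall fun f hf => ⟨f ∘ₗ e, ⟨f, hf.1, rfl⟩, h Y f hf⟩

theorem cyc_ge [CharZero Ω] {V : SmProjVar k} {τ : P.H V} (hτ : τ ≠ 0)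
    (hnil : ∀ x ∈ Nul P V V, IsNilpotent (x : Module.End Ω (P.H V))) (Y : SmProjVar k) :
    nr P (V.prod (Y.prod Y)) ≤ Module.finrank Ω (cyc P τ (Y.prod Y)) +
      (Module.finrank Ω (P.H V) - 1) * nr P (Y.prod Y) := by
  obtain ⟨e, he, hee, hr, h⟩ := nr_le_cyc_add_rho hτ hnil
  refine (h _).trans (Nat.add_le_add_left ((rho_le V Y he hee).trans ?_) _)
  exact Nat.mul_le_mul_right _ (by omega)

end Pool.Agent.Helper4.HL
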