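import Mathlib

/-!
# The half law: linear algebra
-/

namespace Pool.Agent.Helper4.HL

variable {F H : Type*} [Field F] [AddCommGroup H] [Module F H] [Module.Finite F H]

/-- orthogonal subspaces of a space on which a form is non-degenerate -/
theorem finrank_add_le_of_ortho (B : H →ₗ[F] H →ₗ[F] F) {T A N : Submodule F H} (hA : A ≤ T)
    (hN : N ≤ T) (hnd : ∀ x ∈ T, (∀ y ∈ T, B x y = 0) → x = 0)
    (h : ∀ n ∈ N, ∀ a ∈ A, B n a = 0) :
    Module.finrank F N + Module.finrank F A ≤ Module.finrank F T := by
  let φ : N →ₗ[F] Module.Dual F T := {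
    toFun := fun n => (B n) ∘ₗ T.subtype
    map_add' := fun a b => by rw [Submodule.coe_add, map_add, LinearMap.add_comp]
    map_smul' := fun c a => by
      rw [Submodule.coe_smul, map_smul, LinearMap.smul_comp, RingHom.id_apply] }
  have hφ : ∀ (n : N) (t : T), φ n t = B n t := fun n t => rfl
  have hinj : Function.Injective φ := by
    rw [injective_iff_map_eq_zero]
    intro n hn
    refine Subtype.ext (hnd n (hN n.2) fun y hy => ?_)
    have := congrArg (fun f : Module.Dual F T => f ⟨y, hy⟩) hn
    exact this
  let A' : Submodule F T := A.comap T.subtype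
  have h1 : LinearMap.range φ ≤ A'.dualAnnihilator := by
    rintro _ ⟨n, rfl⟩
    rw [Submodule.mem_dualAnnihilator]
    intro t ht
    exact h n n.2 t ht
  have h2 : Module.finrank F A' = Module.finrank F A :=
    LinearEquiv.finrank_eq (Submodule.comapSubtypeEquivOfLe hA)
  have h3 := Subspace.finrank_add_finrank_dualAnnihilator_eq A'
  have h4 := Submodule.finrank_mono h1
  have h5 : Module.finrank F (LinearMap.range φ) = Module.finrank F N :=
    LinearMap.finrank_range_of_inj hinj
  omega

/-- the orthogonal projection to a subspace on which a form is non-degenerate -/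
theorem exists_proj (B : H →ₗ[F] H →ₗ[F] F) {A : Submodule F H}
    (hnd : ∀ x ∈ A, (∀ y ∈ A, B y x = 0) → x = 0) (z : H) :
    ∃ a ∈ A, ∀ b ∈ A, B b (z - a) = 0 := by
  let φ : A →ₗ[F] Module.Dual F A := {
    toFun := fun a => (B.flip a) ∘ₗ A.subtype
    map_add' := fun a b => by rw [Submodule.coe_add, map_add, LinearMap.add_comp]
    map_smul' := fun c a => by
      rw [Submodule.coe_smul, map_smul, LinearMap.smul_comp, RingHom.id_apply] }
  have hφ : ∀ (a : A) (t : A), φ a t = B t a := fun n t => rfl
  have hinj : Function.Injective φ := by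
    rw [injective_iff_map_eq_zero]
    intro n hn
    refine Subtype.ext (hnd n n.2 fun y hy => ?_)
    have := congrArg (fun f : Module.Dual F A => f ⟨y, hy⟩) hn
    exact this
  have hsurj : Function.Surjective φ :=
    (LinearMap.injective_iff_surjective_of_finrank_eq_finrank
      (Subspace.dual_finrank_eq (K := F) (V := A)).symm).1 hinj
  obtain ⟨a, ha⟩ := hsurj ((B.flip z) ∘ₗ A.subtype)
  refine ⟨a, a.2, fun b hb => ?_⟩
  have h1 := congrArg (fun f : Module.Dual F A => f ⟨b, hb⟩) ha
  have h2 : B b a = B b z := h1
  rw [map_sub, h2, sub_self]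

end Pool.Agent.Helper4.HL
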