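import Mathlib
import Pool.Agent.Helper4.HL.Cyc
import Pool.Agent.Helper4.HL.Lin
import Pool.Agent.Helper4.HL.Uni
import Pool.Agent.Helper34.ZP.G5

/-!
# The half law
-/

universe u v w t

open CategoryTheory

namespace Pool.Agent.Helper4.HL

open Pool.Agent.Helper10 Pool.Agent.Helper11.Iso SmProjVar SPre Pool.Agent.Helper34.ZP

variable {k : Type u} [Field k] {K : Type t} [Field K] {Ω : Type v} [Field Ω] [Algebra K Ω]
  {P : SPre.{u, v, w, t} k K Ω}

lemma map_alg {X Y : SmProjVar k} {f : P.H X →ₗ[Ω] P.H Y} (hf : f ∈ Mor P X Y) {x : P.H X}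
    (hx : x ∈ P.alg X) : f x ∈ P.alg Y := by
  obtain ⟨c, hc, h⟩ := hf
  obtain ⟨b, hb, hb'⟩ := P.push (snd X Y) (P.pull (fst X Y) x * c)
    (P.mul_mem _ _ _ (P.pull_mem _ _ hx) hc)
  have : f x = b := by
    rw [← sub_eq_zero]
    refine P.nondeg Y _ fun y => ?_
    rw [sub_mul, map_sub, hb' y, ← h x y, sub_self]
  rwa [this]

/-- the images of a nonzero class on `Z × (Y × Y)` -/
theorem cyc_ge' [CharZero Ω] {V : SmProjVar k} {τ : P.H V} (hτ : τ ≠ 0)
    (hnil : ∀ x ∈ Nul P V V, IsNilpotent (x : Module.End Ω (P.H V))) (Z Y : SmProjVar k) :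
    nr P (V.prod (Z.prod (Y.prod Y))) ≤ Module.finrank Ω (cyc P τ (Z.prod (Y.prod Y))) +
      (Module.finrank Ω (P.H V) - 1) * Module.finrank Ω (P.H Z) * nr P (Y.prod Y) := by
  obtain ⟨e, he, hee, hr, h⟩ := nr_le_cyc_add_rho hτ hnil
  refine (h _).trans (Nat.add_le_add_left ((rho_assoc V Z (Y.prod Y) e).symm.le.trans ?_) _)
  have h1 : tmap e (LinearMap.id : P.H Z →ₗ[Ω] P.H Z) ∈ Mor P (V.prod Z) (V.prod Z) :=
    tmap_mem_Mor he (isMap_id Z)
  refine (rho_le (V.prod Z) Y h1 (tmap_idem hee (LinearMap.comp_id _))).trans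
    (Nat.mul_le_mul_right _ ?_)
  rw [finrank_range_tmap, LinearMap.range_id, finrank_top]
  exact Nat.mul_le_mul_right _ (by omega)

lemma finrank_cyc_le_of_retract {V : SmProjVar k} (τ : P.H V) {A B : SmProjVar k}
    (h : Retract A B) : Module.finrank Ω (cyc P τ A) ≤ Module.finrank Ω (cyc P τ B) := by
  obtain ⟨i, p, h⟩ := h
  have h1 : cyc P τ A ≤ (cyc P τ B).map (P.pull i).toLinearMap := by
    rintro _ ⟨f, hf, rfl⟩
    refine ⟨((P.pull p).toLinearMap ∘ₗ f) τ, ⟨_, hf.comp (isMap_pull p), rfl⟩, ?_⟩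
    change P.pull i (P.pull p (f τ)) = f τ
    rw [pull_pull, h, P.pull_id, AlgHom.id_apply]
  exact (Submodule.finrank_mono h1).trans (Submodule.finrank_map_le _ _)

lemma nul_nil_of_D {V : SmProjVar k} (h : P.D (V.prod V)) :
    ∀ x ∈ Nul P V V, IsNilpotent (x : Module.End Ω (P.H V)) := by
  intro x hx
  rw [← map_opL_radS] at hx
  obtain ⟨c, hc, rfl⟩ := hx
  rw [h c hc, map_zero]
  exact IsNilpotent.zero

/-- the bilinear form `tr (x y)` -/
noncomputable def trB (P : SPre.{u, v, w, t} k K Ω) (X : SmProjVar k) :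
    P.H X →ₗ[Ω] P.H X →ₗ[Ω] Ω :=
  LinearMap.mk₂ Ω (fun x y => P.tr X (x * y))
    (fun a b c => by rw [add_mul, map_add]) (fun a b c => by rw [smul_mul_assoc, map_smul])
    (fun a b c => by rw [mul_add, map_add]) (fun a b c => by rw [mul_smul_comm, map_smul])

lemma trB_apply {X : SmProjVar k} (x y : P.H X) : trB P X x y = P.tr X (x * y) := rfl

section Main

variable {X : SmProjVar k} {T : ∀ n, Submodule Ω (P.H (X.selfProd n))}

/-- orthogonality of algebraic and numerically trivial classes -/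
theorem two_mul_hr_le (hA : ∀ n, P.alg (X.selfProd n) ≤ T n)
    (hN : ∀ n, ∀ x ∈ T n, (∀ y ∈ T n, P.tr _ (x * y) = 0) → x = 0) (n : ℕ) :
    2 * hr P (X.selfProd n) ≤ Module.finrank Ω (T n) + nr P (X.selfProd n) := by
  have h1 := finrank_add_le_of_ortho (trB P (X.selfProd n)) (hA n)
    (N := P.alg (X.selfProd n) ⊓ radS P (X.selfProd n)) (inf_le_left.trans (hA n))
    (fun x hx h => hN n x hx h) (fun x hx a ha => hx.2.2 a ha)
  have h2 := rdim_add (radS P (X.selfProd n)) (P.alg (X.selfProd n))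
  unfold hr nr
  omega

/-- if D holds for all powers: algebraic classes and the images of a class orthogonal to them -/
theorem hr_add_cyc_le (hA : ∀ n, P.alg (X.selfProd n) ≤ T n)
    (hM : ∀ m n (f : P.H (X.selfProd m) →ₗ[Ω] P.H (X.selfProd n)),
      f ∈ Mor P (X.selfProd m) (X.selfProd n) → ∀ u ∈ T m, f u ∈ T n)
    (hD : P.DP X) {r : ℕ} {τ : P.H (X.selfProd r)} (hτ : τ ∈ T r)
    (hτA : ∀ a ∈ P.alg (X.selfProd r), P.tr _ (a * τ) = 0) (n : ℕ) :
    hr P (X.selfProd n) + Module.finrank Ω (cyc P τ (X.selfProd n)) ≤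
      Module.finrank Ω (T n) := by
  have h1 : P.alg (X.selfProd n) ⊔ cyc P τ (X.selfProd n) ≤ T n := by
    refine sup_le (hA n) ?_
    rintro _ ⟨f, hf, rfl⟩
    exact hM r n f hf τ hτ
  have h2 : P.alg (X.selfProd n) ⊓ cyc P τ (X.selfProd n) = ⊥ := by
    rw [eq_bot_iff]
    rintro x ⟨hx, f, hf, rfl⟩
    rw [Submodule.mem_bot]
    refine hD n _ ⟨hx, fun a ha => ?_⟩
    rw [← P.ev_comm _ a _ (P.alg_le_ev _ ha)]
    change P.tr _ (a * f τ) = 0
    rw [← tr_adj]
    exact hτA _ (map_alg (adj_mem_Mor hf) ha)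
  have h3 := Submodule.finrank_sup_add_finrank_inf_eq (P.alg (X.selfProd n))
    (cyc P τ (X.selfProd n))
  rw [h2, finrank_bot, add_zero] at h3
  have h4 := Submodule.finrank_mono h1
  unfold hr
  omega

/-- a class of `T` which is orthogonal to the algebraic classes -/
theorem exists_tau (hA : ∀ n, P.alg (X.selfProd n) ≤ T n) (hD : P.DP X) {r : ℕ}
    (h : T r ≠ P.alg (X.selfProd r)) : ∃ τ ∈ T r, τ ≠ 0 ∧
      ∀ a ∈ P.alg (X.selfProd r), P.tr _ (a * τ) = 0 := by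
  obtain ⟨z, hz, hz'⟩ : ∃ z ∈ T r, z ∉ P.alg (X.selfProd r) := by
    by_contra hcon
    push Not at hcon
    exact h (le_antisymm hcon (hA r))
  obtain ⟨a, ha, h1⟩ := exists_proj (trB P (X.selfProd r)) (A := P.alg (X.selfProd r))
    (fun x hx hx' => hD r x ⟨hx, fun y hy => by
      rw [P.ev_comm _ x _ (P.alg_le_ev _ hx)]
      exact hx' y hy⟩) z
  refine ⟨z - a, sub_mem hz (hA r ha), fun h0 => hz' ?_, h1⟩
  rw [sub_eq_zero.1 h0]
  exact ha

/-- the spaces `T` are not algebraic on the next power either -/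
theorem ne_succ (hA : ∀ n, P.alg (X.selfProd n) ≤ T n)
    (hM : ∀ m n (f : P.H (X.selfProd m) →ₗ[Ω] P.H (X.selfProd n)),
      f ∈ Mor P (X.selfProd m) (X.selfProd n) → ∀ u ∈ T m, f u ∈ T n) {r : ℕ}
    (h : T r ≠ P.alg (X.selfProd r)) : T (r + 1) ≠ P.alg (X.selfProd (r + 1)) := by
  intro h1
  refine h (le_antisymm (fun x hx => ?_) (hA r))
  obtain ⟨i, p, hip⟩ := G7_retract_succ X r
  have h2 : P.pull p x ∈ T (r + 1) := hM r (r + 1) (P.pull p).toLinearMap (isMap_pull p) x hx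
  rw [h1] at h2
  have h3 := P.pull_mem i _ h2
  rw [pull_pull, hip, P.pull_id, AlgHom.id_apply] at h3
  exact h3

end Main

end Pool.Agent.Helper4.HL
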