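import Mathlib
import Pool.Agent.Helper59.ZP.QFinal
import Pool.Agent.Helper11.ZQ.Pow
import Pool.Agent.Helper13.P2.WLevel

/-!
# One power is enough: both forms, with a power saving
-/

universe u v w

open CategoryTheory Filter Topology

namespace Pool.Agent.Helper4.HL

open Pool.Agent.Helper10 Pool.Agent.Helper11 SmProjVar Pool.Agent.Helper59.ZO
  Pool.Agent.Helper59.ZP Pool.Agent.Helper34.ZP

/-- the rate of the powers -/
theorem polyRate2 (b r : ℕ) : Pool.Agent.Helper11.ZQ.PolyRate2.{u, v, w, v} b r :=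
  Pool.Agent.Helper13.P2.poly_rate2.{u, v, w, v} b r

/-- **One power is enough**, with a power saving. -/
theorem one_power_p2 (b r : ℕ) : ∃ C α : ℝ, 0 < C ∧ 0 < α ∧
    ∀ (k : Type u) [Field k] (K : Type v) [Field K] [CharZero K]
      (W : WeilCohomology.{u, v, w} k K) (X : SmProjVar k), betti W.toCohomologyData X ≤ b →
        ∀ V : ∀ n : ℕ, Submodule K (W.H (X.selfProd n)), IsSystem W.toCohomologyData X V →
          ∀ m : ℕ,
            (C / ((m : ℝ) + 2) ^ α < density W.toCohomologyData X V m →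
              W.StandardD (X.selfProd r)) ∧
            (NondegenerateAt W.toCohomologyData X V m →
              MoreThan W.toCohomologyData X V m (1 / 2 + C / ((m : ℝ) + 2) ^ α) →
              AlgebraicUpTo W.toCohomologyData X V r) := by
  obtain ⟨C₂, α₂, hC₂, hα₂, h₂⟩ := Pool.Agent.Helper13.P2.uniform_poly.{u, v, w} b r
  obtain ⟨C₃, α₃, hC₃, hα₃, h₃⟩ := Pool.Agent.Helper11.ZQ.half_power_of.{u, v, w} b r
    (polyRate2.{u, v, w} b _)
  refine ⟨max C₂ C₃, min α₂ α₃, lt_max_of_lt_left hC₂, lt_min hα₂ hα₃, ?_⟩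
  intro k _ K _ _ W X hX V hV m
  have hm : (0 : ℝ) ≤ m := Nat.cast_nonneg m
  have hVm := sys_pos hV m
  have hav : (cycRank W.toCohomologyData (X.selfProd m) : ℝ) ≤ Module.finrank K (V m) := by
    exact_mod_cast cycRank_le_sys hV m
  have hn0 : (0 : ℝ) ≤ numCycRank W.toCohomologyData (X.selfProd m) := Nat.cast_nonneg _
  have hL : 0 < ((m : ℝ) + 2) ^ (min α₂ α₃) := Real.rpow_pos_of_pos (by linarith) _
  constructor
  · intro h
    by_contra hD
    have h4 := h₂ k K W X hX hD m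
    unfold density at h
    rw [div_lt_div_iff₀ hL hVm] at h
    have h5 : ((m : ℝ) + 2) ^ (min α₂ α₃) ≤ ((m : ℝ) + 2) ^ α₂ :=
      Real.rpow_le_rpow_of_exponent_le (by linarith) (min_le_left _ _)
    have h6 := mul_le_mul_of_nonneg_left h5 hn0
    have h7 : C₂ * (cycRank W.toCohomologyData (X.selfProd m) : ℝ) ≤
        max C₂ C₃ * Module.finrank K (V m) :=
      mul_le_mul (le_max_left C₂ C₃) hav (Nat.cast_nonneg _) (hC₂.le.trans (le_max_left C₂ C₃))
    linarith
  · intro hnd h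
    refine h₃ k K W X hX V hV m hnd (lt_of_le_of_lt (mul_le_mul_of_nonneg_right ?_ hVm.le) h)
    have h5 : ((m : ℝ) + 2) ^ (min α₂ α₃) ≤ ((m : ℝ) + 2) ^ α₃ :=
      Real.rpow_le_rpow_of_exponent_le (by linarith) (min_le_right _ _)
    have h6 : C₃ / ((m : ℝ) + 2) ^ α₃ ≤ C₃ / ((m : ℝ) + 2) ^ (min α₂ α₃) :=
      div_le_div_of_nonneg_left hC₃.le hL h5
    have h7 : C₃ / ((m : ℝ) + 2) ^ (min α₂ α₃) ≤
        max C₂ C₃ / ((m : ℝ) + 2) ^ (min α₂ α₃) :=
      div_le_div_of_nonneg_right (le_max_right C₂ C₃) hL.le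
    linarith

end Pool.Agent.Helper4.HL
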