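import Mathlib
import Pool.Agent.Helper59.ZP.ZFinal
import Pool.Agent.Helper59.ZP.UniW
import Pool.Agent.Helper34.ZP.Glob

/-!
# Grothendieck's standard conjecture D: density laws (merged candidate)

`X` is a smooth projective variety over a field `k`, `H` a Weil cohomology theory with coefficients
in a field `K` of characteristic zero; `X.selfProd n` is `X ^ (n + 1)`. `cycRank Y` is the dimension
of the span of the classes of algebraic cycles in `H(Y)`, `numCycRank Y` the dimension of its
quotient by the classes which are orthogonal to all classes of algebraic cycles, `betti Y` the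
dimension of `H(Y)`. A system on the powers of `X` consists of a space `V n` of classes in
`H(X ^ (n + 1))` for every `n`, such that `V n` contains the classes of algebraic cycles and
algebraic correspondences between the powers of `X` map the spaces into each other.
-/

universe u v w

open CategoryTheory Filter Topology

namespace Pool.Agent.Helper4.HL.CandM

open Pool.Agent.Helper10 Pool.Agent.Helper11 SmProjVar Pool.Agent.Helper59.ZO
  Pool.Agent.Helper59.ZP

theorem result :
    -- (1) one power is enough
    (∀ (b r : ℕ) (ε : ℝ), 0 < ε → ∃ m₀ : ℕ,
      ∀ (k : Type u) [Field k] (K : Type v) [Field K] [CharZero K]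
        (W : WeilCohomology.{u, v, w} k K) (X : SmProjVar k), betti W.toCohomologyData X ≤ b →
          ∀ m ≥ m₀, ε * cycRank W.toCohomologyData (X.selfProd m) ≤
            numCycRank W.toCohomologyData (X.selfProd m) → W.StandardD (X.selfProd r)) ∧
    -- (2) the half law: one power is enough
    (∀ (b r : ℕ) (ε : ℝ), 0 < ε → ∃ m₀ : ℕ,
      ∀ (k : Type u) [Field k] (K : Type v) [Field K] [CharZero K]
        (W : WeilCohomology.{u, v, w} k K) (X : SmProjVar k), betti W.toCohomologyData X ≤ b →
          ∀ V, IsSystem W.toCohomologyData X V → ∀ m ≥ m₀,
            NondegenerateAt W.toCohomologyData X V m →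
            AlgebraicProportion W.toCohomologyData X V m (1 / 2 + ε) →
            AlgebraicUpTo W.toCohomologyData X V r) ∧
    ∀ (k : Type u) [Field k] (K : Type v) [Field K] [CharZero K]
      (W : WeilCohomology.{u, v, w} k K),
      -- (3) all varieties: one percent is enough
      ((∀ Y, W.StandardD Y) ↔ ∃ ε : ℝ, 0 < ε ∧ ∀ Y,
        ε * cycRank W.toCohomologyData Y ≤ numCycRank W.toCohomologyData Y) ∧
      -- (4) all varieties over a finite field: 51 percent of the Tate classes are enough
      (∀ _ : Finite k,
        (∀ Y, W.StandardD Y ∧ tateClasses W.toCohomologyData Y ≤ W.algClasses Y) ↔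
          ∃ ε : ℝ, 0 < ε ∧ ∀ Y,
            (1 / 2 + ε) * Module.finrank K (tateClasses W.toCohomologyData Y) ≤
              cycRank W.toCohomologyData Y) ∧
      ∀ X : SmProjVar k,
        -- (5) the trichotomy
        (CaseD W.toCohomologyData X ∨ CaseNil W.toCohomologyData X ∨
          CaseExp W.toCohomologyData X) ∧
        (SignConjecture W.toCohomologyData X → NullNilpotent W.toCohomologyData X) ∧
        -- (6) the quantization law
        (∀ V, IsSystem W.toCohomologyData X V →
          Tendsto (density W.toCohomologyData X V) atTop (𝓝 0) ∨
          (StandardDPowers W.toCohomologyData X ∧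
            ∃ d : ℕ, 1 ≤ d ∧ (d = 1 ↔ IsAlgebraicSystem W.toCohomologyData X V) ∧
              Tendsto (density W.toCohomologyData X V) atTop (𝓝 (1 / d)))) ∧
        -- (7) Tate classes over a finite field
        (∀ _ : Finite k,
          IsPerfectSystem W.toCohomologyData X (tateSystem W.toCohomologyData X) ∧
          (¬ Tendsto (density W.toCohomologyData X (tateSystem W.toCohomologyData X)) atTop
              (𝓝 0) →
            ∀ n, IsFrobeniusSemisimple W.toCohomologyData (X.selfProd n))) := by
  refine ⟨fun b r ε hε => one_power b r ε hε, fun b r ε hε => uniform_half b r ε hε, ?_⟩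
  intro k _ K _ _ W
  refine ⟨all_iff, fun _ => Pool.Agent.Helper34.ZP.tate_global W, fun X => ?_⟩
  exact ⟨trichotomy W X, nullNilpotent_of_sign, fun _ hV => quantization_law hV,
    fun _ => tate_law W X⟩

end Pool.Agent.Helper4.HL.CandM
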