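import Mathlib
import Pool.Agent.Helper59.ZP.ZFinal
import Pool.Agent.Helper34.ZP.UHR

/-!
# One power is enough: both forms with one constant
-/

universe u v w

open CategoryTheory Filter Topology

namespace Pool.Agent.Helper4.HL

open Pool.Agent.Helper10 Pool.Agent.Helper11 SmProjVar Pool.Agent.Helper59.ZO
  Pool.Agent.Helper59.ZP Pool.Agent.Helper34.ZP

/-- **One power is enough.** -/
theorem one_power_rate (b r : ℕ) : ∃ C : ℝ,
    ∀ (k : Type u) [Field k] (K : Type v) [Field K] [CharZero K]
      (W : WeilCohomology.{u, v, w} k K) (X : SmProjVar k), betti W.toCohomologyData X ≤ b →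
        ∀ V : ∀ n : ℕ, Submodule K (W.H (X.selfProd n)), IsSystem W.toCohomologyData X V →
          ∀ m : ℕ,
            (C / Real.log (m + 2) < density W.toCohomologyData X V m →
              W.StandardD (X.selfProd r)) ∧
            (NondegenerateAt W.toCohomologyData X V m →
              (1 / 2 + C / Real.log (m + 2)) * Module.finrank K (V m) <
                cycRank W.toCohomologyData (X.selfProd m) →
              AlgebraicUpTo W.toCohomologyData X V r) := by
  obtain ⟨C₁, hC₁, h₁⟩ := uniform_rate.{u, v, w} b r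
  obtain ⟨C₂, hC₂, h₂⟩ := Pool.Agent.Helper34.ZP.uniform_half_rate.{u, v, w, v} b r
  refine ⟨max C₁ C₂, ?_⟩
  intro k _ K _ _ W X hX V hV m
  have hL : 0 < Real.log ((m : ℝ) + 2) := Real.log_pos (by
    have : (0 : ℝ) ≤ m := Nat.cast_nonneg _
    linarith)
  have hVm := sys_pos hV m
  have hav : (cycRank W.toCohomologyData (X.selfProd m) : ℝ) ≤ Module.finrank K (V m) := by
    exact_mod_cast cycRank_le_sys hV m
  constructor
  · intro h
    by_contra hD
    have h3 := h₁ k K W X hX hD m
    unfold density at h
    rw [div_lt_div_iff₀ hL hVm] at h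
    have h4 : C₁ * (cycRank W.toCohomologyData (X.selfProd m) : ℝ) ≤
        max C₁ C₂ * Module.finrank K (V m) :=
      mul_le_mul (le_max_left _ _) hav (Nat.cast_nonneg _) (hC₁.le.trans (le_max_left _ _))
    linarith
  · intro hnd h s hs
    have h5 : (1 / 2 + C₂ / Real.log (m + 2)) * Module.finrank K (V m) ≤
        (1 / 2 + max C₁ C₂ / Real.log (m + 2)) * Module.finrank K (V m) := by
      refine mul_le_mul_of_nonneg_right ?_ hVm.le
      gcongr
      exact le_max_right _ _
    have h6 := h₂ k K K (base W) (nr_base_pos W) X hX V (sys_mor hV) (sys_alg hV) m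
      (fun x hx hy => hnd x hx hy) (by
        rw [hr_base]
        exact h5.trans_lt h) s hs
    exact ⟨(d_base W _).mp h6.1, h6.2.le⟩

end Pool.Agent.Helper4.HL
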