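import Mathlib
import Pool.Agent.Helper59.ZP.QFinal
import Pool.Agent.Helper4.HL.UniM

/-!
# Grothendieck's standard conjecture D: the density law for algebraic classes

Let `H` be a Weil cohomology theory for the smooth projective varieties over a field `k`, with
coefficients in a field `K` of characteristic zero. For a variety `Y` let `a(Y) = cycRank Y` be the
dimension of the `K`-span of the classes of algebraic cycles in `H(Y)`, and `n(Y) = numCycRank Y` the
dimension of this space modulo numerical equivalence, i.e. modulo the classes orthogonal to all
classes of algebraic cycles. So `n(Y) ≤ a(Y)`, with equality if and only if D holds for `Y`.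
`X.selfProd n` is the power `X ^ (n + 1)`.

A system `V` consists of a space of classes in `H(Y)` for every variety `Y` (or only for the powers
`Y` of one variety `X`) which contains the classes of algebraic cycles, such that algebraic
correspondences map the spaces into each other. Examples: the span of the classes of algebraic
cycles; over a finite field the Tate classes.

The theorem determines how often a class in a system can be algebraic.

(1) One power is enough. For all `b` and `r` there is `C` such that, for all fields `k`, all `H`, all
`X` with `dim H(X) ≤ b`, all systems `V` on the powers of `X` and all `m ≥ 1`: if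
`n(X ^ m) > (C / log (m + 1)) dim V(X ^ m)`, then D holds for `X ^ (r + 1)`; if the pairing on
`V(X ^ m)` is non-degenerate and `a(X ^ m) > (1 / 2 + C / log (m + 1)) dim V(X ^ m)`, then D holds
for `X ^ s` and all classes in `V(X ^ s)` are algebraic, for all `s ≤ r + 1`.

(2) D holds for all varieties `Y` over `k` if and only if there is `ε > 0` such that
`n(Y) ≥ ε a(Y)` for all `Y`: the conjecture follows from its one percent version.

(3) If the pairings on the spaces of the system `V` on all varieties are non-degenerate: D holds and
all classes in `V(Y)` are algebraic, for all `Y`, if and only if there is `ε > 0` such that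
`a(Y) ≥ (1 / 2 + ε) dim V(Y)` for all `Y`.

(4) The limit law. For every system `V` on the powers of `X`, `n(X ^ m) / dim V(X ^ m)` tends to `0`,
or D holds for all powers of `X` and it tends to `1 / d` for an integer `d ≥ 1`, and `d = 1` if and
only if all classes in `V` are algebraic.

(5) Over a finite field the Tate classes are a system with non-degenerate pairings, and Frobenius is
semisimple on the cohomology of all powers of `X` unless `n(X ^ m)` divided by the dimension of the
space of Tate classes on `X ^ m` tends to `0`.
-/

universe u v w

open CategoryTheory Filter Topology

namespace Pool.Agent.Helper4.HL.CandM2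

open Pool.Agent.Helper10 Pool.Agent.Helper11 SmProjVar Pool.Agent.Helper59.ZO
  Pool.Agent.Helper59.ZP

theorem result :
    -- (1) one power is enough
    (∀ b r : ℕ, ∃ C : ℝ, ∀ (k : Type u) [Field k] (K : Type v) [Field K] [CharZero K]
      (W : WeilCohomology.{u, v, w} k K) (X : SmProjVar k), betti W.toCohomologyData X ≤ b →
        ∀ V, IsSystem W.toCohomologyData X V → ∀ m : ℕ,
          (C / Real.log (m + 2) < density W.toCohomologyData X V m →
            W.StandardD (X.selfProd r)) ∧
          (NondegenerateAt W.toCohomologyData X V m →
            (1 / 2 + C / Real.log (m + 2)) * Module.finrank K (V m) <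
              cycRank W.toCohomologyData (X.selfProd m) →
            AlgebraicUpTo W.toCohomologyData X V r)) ∧
    ∀ (k : Type u) [Field k] (K : Type v) [Field K] [CharZero K]
      (W : WeilCohomology.{u, v, w} k K),
      -- (2) D for all varieties over `k`
      ((∀ Y, W.StandardD Y) ↔ ∃ ε : ℝ, 0 < ε ∧ ∀ Y,
        ε * cycRank W.toCohomologyData Y ≤ numCycRank W.toCohomologyData Y) ∧
      -- (3) D for all varieties over `k`, and all classes in a system are algebraic
      (∀ V, IsPerfectGlobalSystem W.toCohomologyData V →
        (GloballyAlgebraic W.toCohomologyData V ↔
          ∃ ε : ℝ, 0 < ε ∧ GlobalProportion W.toCohomologyData V (1 / 2 + ε))) ∧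
      -- (4) the limit of the densities
      (∀ X V, IsSystem W.toCohomologyData X V →
        Tendsto (density W.toCohomologyData X V) atTop (𝓝 0) ∨
        (StandardDPowers W.toCohomologyData X ∧
          ∃ d : ℕ, 1 ≤ d ∧ (d = 1 ↔ IsAlgebraicSystem W.toCohomologyData X V) ∧
            Tendsto (density W.toCohomologyData X V) atTop (𝓝 (1 / d)))) ∧
      -- (5) Tate classes over a finite field
      (∀ _ : Finite k,
        IsPerfectGlobalSystem W.toCohomologyData (tateClasses W.toCohomologyData) ∧
        ∀ X : SmProjVar k,
          (¬ Tendsto (density W.toCohomologyData X (tateSystem W.toCohomologyData X)) atTop (𝓝 0) →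
            ∀ n, IsFrobeniusSemisimple W.toCohomologyData (X.selfProd n))) := by
  refine ⟨fun b r => ?_, ?_⟩
  · obtain ⟨C, h⟩ := Pool.Agent.Helper4.HL.one_power_rate.{u, v, w} b r
    exact ⟨C, fun k _ K _ _ W X hX V hV m => h k K W X hX V hV m⟩
  · intro k _ K _ _ W
    exact ⟨all_iff, fun _ hV => global_law hV, fun _ _ hV => quantization_law hV,
      fun _ => tate_global_law W⟩

end Pool.Agent.Helper4.HL.CandM2
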