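import Mathlib
import Pool.Agent.Helper73.QL.Final
import Pool.Agent.Helper4.HL.Law

/-!
# The half law, for the auxiliary structure
-/

universe u v w t

open CategoryTheory Filter Topology

namespace Pool.Agent.Helper4.HL

open Pool.Agent.Helper10 Pool.Agent.Helper11.Iso SmProjVar SPre Pool.Agent.Helper34.ZP

variable {k : Type u} [Field k] {K : Type t} [Field K] {Ω : Type v} [Field Ω] [Algebra K Ω]
  {P : SPre.{u, v, w, t} k K Ω}

/-- **The half law**, for the auxiliary structure: if the pairing is non-degenerate on the spaces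
`V n`, then either all their classes are algebraic, or the proportion of the algebraic classes is
asymptotically at most one half. -/
theorem half_law [CharZero Ω] (hpt : ∀ Y, 1 ≤ nr P Y) (X : SmProjVar k)
    (V : ∀ n : ℕ, Submodule Ω (P.H (X.selfProd n)))
    (hA : ∀ n, P.alg (X.selfProd n) ≤ V n)
    (hM : ∀ m n, ∀ f ∈ Mor P (X.selfProd m) (X.selfProd n), ∀ u ∈ V m, f u ∈ V n)
    (hN : ∀ n, ∀ x ∈ V n, (∀ y ∈ V n, P.tr _ (x * y) = 0) → x = 0) :
    (P.DP X ∧ ∀ n, V n = P.alg (X.selfProd n)) ∨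
    ∀ δ : ℝ, 0 < δ → ∃ L, ∀ m ≥ L,
      (hr P (X.selfProd m) : ℝ) ≤ (1 / 2 + δ) * Module.finrank Ω (V m) := by
  have hn : ∀ m, (0 : ℝ) < nr P (X.selfProd m) := fun m => by exact_mod_cast hpt _
  rcases Pool.Agent.Helper73.QL.ql hpt X V hA hM with h | ⟨hD, d, hd, hd1, hlim⟩
  · right
    intro δ hδ
    obtain ⟨M, hM0⟩ := exists_nat_gt (1 / (2 * δ))
    obtain ⟨L, hL⟩ := h M
    refine ⟨L, fun m hm => ?_⟩
    have h1 : (2 * hr P (X.selfProd m) : ℝ) ≤ Module.finrank Ω (V m) + nr P (X.selfProd m) := by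
      exact_mod_cast two_mul_hr_le hA hN m
    have h2 : (M * nr P (X.selfProd m) : ℝ) ≤ Module.finrank Ω (V m) := by
      exact_mod_cast hL m hm
    have h3 : (nr P (X.selfProd m) : ℝ) ≤ 2 * δ * Module.finrank Ω (V m) := by
      have hδ' : 0 < 2 * δ := by positivity
      have h4 : 1 ≤ 2 * δ * M := by
        rw [div_lt_iff₀ hδ'] at hM0
        linarith
      calc (nr P (X.selfProd m) : ℝ) ≤ (2 * δ * M) * nr P (X.selfProd m) :=
            le_mul_of_one_le_left (hn m).le h4
        _ = 2 * δ * (M * nr P (X.selfProd m)) := by ring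
        _ ≤ 2 * δ * Module.finrank Ω (V m) := mul_le_mul_of_nonneg_left h2 hδ'.le
    linarith
  · rcases Nat.eq_or_lt_of_le hd with h1 | h1
    · exact .inl ⟨hD, hd1.1 h1.symm⟩
    · right
      intro δ hδ
      have hd2 : (2 : ℝ) ≤ d := by exact_mod_cast h1
      have h2 : (1 : ℝ) / (1 / 2 + δ) < d := by
        rw [div_lt_iff₀ (by positivity)]
        nlinarith
      obtain ⟨L, hL⟩ := eventually_atTop.1 (hlim.eventually (lt_mem_nhds h2))
      refine ⟨L, fun m hm => ?_⟩
      have h3 := hL m hm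
      rw [div_lt_div_iff₀ (by positivity) (hn m), one_mul] at h3
      rw [hr_eq_nr_of_D (hD m)]
      linarith

end Pool.Agent.Helper4.HL
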