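import Mathlib
import Pool.Agent.Helper4.HL.UniM
import Pool.Agent.Helper59.ZP.PolyW
import Pool.Agent.Helper34.ZP.PolyHalfW

/-!
# One power is enough: both forms, with both rates
-/

universe u v w

open CategoryTheory Filter Topology

namespace Pool.Agent.Helper4.HL

open Pool.Agent.Helper10 Pool.Agent.Helper11 SmProjVar Pool.Agent.Helper59.ZO
  Pool.Agent.Helper59.ZP Pool.Agent.Helper34.ZP

/-- **One power is enough**: with `L = log (m + 2)`, and with `L = (m + 2) ^ α` under the sign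
conjecture. -/
theorem one_power_both (b r : ℕ) : ∃ C α : ℝ, 0 < C ∧ 0 < α ∧
    ∀ (k : Type u) [Field k] (K : Type v) [Field K] [CharZero K]
      (W : WeilCohomology.{u, v, w} k K) (X : SmProjVar k), betti W.toCohomologyData X ≤ b →
        ∀ V : ∀ n : ℕ, Submodule K (W.H (X.selfProd n)), IsSystem W.toCohomologyData X V →
          ∀ (m : ℕ) (L : ℝ), (L = Real.log (m + 2) ∨
              SignConjecture W.toCohomologyData X ∧ L = ((m : ℝ) + 2) ^ α) →
            (C / L < density W.toCohomologyData X V m → W.StandardD (X.selfProd r)) ∧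
            (NondegenerateAt W.toCohomologyData X V m →
              MoreThan W.toCohomologyData X V m (1 / 2 + C / L) →
              AlgebraicUpTo W.toCohomologyData X V r) := by
  obtain ⟨C₁, h₁⟩ := one_power_rate.{u, v, w} b r
  obtain ⟨C₂, α₂, hC₂, hα₂, h₂⟩ := Pool.Agent.Helper59.ZP.poly_rate.{u, v, w} b r
  obtain ⟨C₃, α₃, hC₃, hα₃, h₃⟩ := poly_half_rateW.{u, v, w} b r
  refine ⟨max C₁ (max C₂ C₃), min α₂ α₃, lt_max_of_lt_right (lt_max_of_lt_left hC₂),
    lt_min hα₂ hα₃, ?_⟩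
  intro k _ K _ _ W X hX V hV m L hL
  have hm : (0 : ℝ) ≤ m := Nat.cast_nonneg m
  have hVm := sys_pos hV m
  have hav : (cycRank W.toCohomologyData (X.selfProd m) : ℝ) ≤ Module.finrank K (V m) := by
    exact_mod_cast cycRank_le_sys hV m
  have hn0 : (0 : ℝ) ≤ numCycRank W.toCohomologyData (X.selfProd m) := Nat.cast_nonneg _
  rcases hL with rfl | ⟨hS, rfl⟩
  · have hL : 0 < Real.log ((m : ℝ) + 2) := Real.log_pos (by linarith)
    have h4 := div_le_div_of_nonneg_right (le_max_left C₁ (max C₂ C₃)) hL.le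
    refine ⟨fun h => (h₁ k K W X hX V hV m).1 (lt_of_le_of_lt h4 h), fun hnd h =>
      (h₁ k K W X hX V hV m).2 hnd (lt_of_le_of_lt ?_ h)⟩
    exact mul_le_mul_of_nonneg_right (by linarith) hVm.le
  · have hL : 0 < ((m : ℝ) + 2) ^ (min α₂ α₃) := Real.rpow_pos_of_pos (by linarith) _
    constructor
    · intro h
      by_contra hD
      have h4 := h₂ k K W X hX hS hD m
      unfold density at h
      rw [div_lt_div_iff₀ hL hVm] at h
      have h5 : ((m : ℝ) + 2) ^ (min α₂ α₃) ≤ ((m : ℝ) + 2) ^ α₂ :=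
        Real.rpow_le_rpow_of_exponent_le (by linarith) (min_le_left _ _)
      have h6 := mul_le_mul_of_nonneg_left h5 hn0
      have h7 : C₂ * (cycRank W.toCohomologyData (X.selfProd m) : ℝ) ≤
          max C₁ (max C₂ C₃) * Module.finrank K (V m) :=
        mul_le_mul ((le_max_left C₂ C₃).trans (le_max_right _ _)) hav (Nat.cast_nonneg _)
          (hC₂.le.trans ((le_max_left C₂ C₃).trans (le_max_right _ _)))
      linarith
    · intro hnd h
      refine h₃ k K W X hX hS V hV m hnd (lt_of_le_of_lt (mul_le_mul_of_nonneg_right ?_ hVm.le) h)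
      have h5 : ((m : ℝ) + 2) ^ (min α₂ α₃) ≤ ((m : ℝ) + 2) ^ α₃ :=
        Real.rpow_le_rpow_of_exponent_le (by linarith) (min_le_right _ _)
      have h6 : C₃ / ((m : ℝ) + 2) ^ α₃ ≤ C₃ / ((m : ℝ) + 2) ^ (min α₂ α₃) :=
        div_le_div_of_nonneg_left hC₃.le hL h5
      have h7 : C₃ / ((m : ℝ) + 2) ^ (min α₂ α₃) ≤
          max C₁ (max C₂ C₃) / ((m : ℝ) + 2) ^ (min α₂ α₃) :=
        div_le_div_of_nonneg_right ((le_max_right C₂ C₃).trans (le_max_right _ _)) hL.le
      linarith

end Pool.Agent.Helper4.HL
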